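import Pool.Agent.P8H67.TU.Stm

/-!
# Project TU, package PRG: the action on `U` is proper and cocompact, and `N` has finite index in the stabilizers
-/

set_option autoImplicit false

open Set Filter Topology

namespace Pool.Agent.P8H4.TU

open Pool.Agent.P8H67.TU

theorem fac_mul {V U Γ : Type} [NormedAddCommGroup V] [NormedSpace ℝ V] [TopologicalSpace U]
    [Group Γ] [MulAction Γ U] {θ : Γ →* (V ≃ₗ[ℝ] V)} {c : Γ → U → V} (H : FSys V U Γ θ c)
    (γ δ : Γ) (p : V × U) : fac θ c (γ * δ) p = fac θ c γ (fac θ c δ p) := by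
  unfold fac
  refine Prod.ext ?_ ?_
  · show θ (γ * δ) p.1 + c (γ * δ) p.2 = θ γ (θ δ p.1 + c δ p.2) + c γ (δ • p.2)
    rw [map_mul, H.mul, map_add, LinearEquiv.mul_apply]
    abel
  · exact mul_smul γ δ p.2

theorem prg : S_PRG := by
  intro V U Γ _ _ _ _ _ _ _ θ c N R H hprop hcoc hN hw
  -- the subgroup `N` acts trivially on `U`
  have triv : ∀ ν ∈ N, ∀ u : U, ν • u = u := by
    intro ν hν u
    obtain ⟨a, ha⟩ := hN ν hν
    exact congrArg Prod.snd (ha (0, u))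
  have hR : 0 ≤ R := by
    obtain ⟨ν, _, a, _, h⟩ := hw 0
    exact (norm_nonneg _).trans h
  have h0 : (0 : V) ∈ Metric.closedBall (0 : V) R := Metric.mem_closedBall_self hR
  -- moving back
  have key : ∀ (K : Set U) (γ : Γ) (y : U), y ∈ K → γ • y ∈ K → ∃ ν ∈ N,
      ν * γ ∈ {γ : Γ | ∃ p ∈ Metric.closedBall (0 : V) R ×ˢ K,
        fac θ c γ p ∈ Metric.closedBall (0 : V) R ×ˢ K} := by
    intro K γ y hy hγ
    obtain ⟨ν, hν, a, ha, hle⟩ := hw (c γ y)
    refine ⟨ν, hν, (0, y), ⟨h0, hy⟩, ?_⟩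
    have e1 : fac θ c γ ((0 : V), y) = (c γ y, γ • y) := by
      unfold fac
      rw [map_zero, zero_add]
    rw [fac_mul H, e1, ha]
    exact ⟨by rw [mem_closedBall_zero_iff]; exact hle, hγ⟩
  have fin : ∀ K : Set U, IsCompact K → {γ : Γ | ∃ p ∈ Metric.closedBall (0 : V) R ×ˢ K,
      fac θ c γ p ∈ Metric.closedBall (0 : V) R ×ˢ K}.Finite := fun K hK =>
    hprop _ ((isCompact_closedBall (0 : V) R).prod hK)
  refine ⟨?_, ?_, ?_⟩
  · intro K hK
    refine ((fin K hK).image (fun γ => (⟨MulAction.toPermHom Γ U γ, γ, rfl⟩ :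
      (MulAction.toPermHom Γ U).range))).subset ?_
    rintro ⟨g, γ, rfl⟩ ⟨y, hy, hgy⟩
    obtain ⟨ν, hν, h⟩ := key K γ y hy hgy
    refine ⟨ν * γ, h, ?_⟩
    apply Subtype.ext
    refine Equiv.ext fun u => ?_
    show (ν * γ) • u = γ • u
    rw [mul_smul, triv ν hν]
  · obtain ⟨K, hK, h⟩ := hcoc
    refine ⟨Prod.snd '' K, hK.image continuous_snd, fun y => ?_⟩
    obtain ⟨γ, hγ⟩ := h (0, y)
    exact ⟨γ, _, hγ, rfl⟩
  · intro u
    have hfin := fin {u} isCompact_singleton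
    have hT : {s : MulAction.stabilizer Γ u | (s : Γ) ∈
        {γ : Γ | ∃ p ∈ Metric.closedBall (0 : V) R ×ˢ ({u} : Set U),
          fac θ c γ p ∈ Metric.closedBall (0 : V) R ×ˢ ({u} : Set U)}}.Finite :=
      hfin.preimage Subtype.val_injective.injOn
    have := hT.to_subtype
    have hq : Finite (MulAction.stabilizer Γ u ⧸ N.subgroupOf (MulAction.stabilizer Γ u)) := by
      refine Finite.of_surjective (fun s : {s : MulAction.stabilizer Γ u | (s : Γ) ∈
        {γ : Γ | ∃ p ∈ Metric.closedBall (0 : V) R ×ˢ ({u} : Set U),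
          fac θ c γ p ∈ Metric.closedBall (0 : V) R ×ˢ ({u} : Set U)}} =>
          (QuotientGroup.mk (s.1)⁻¹ : MulAction.stabilizer Γ u ⧸
            N.subgroupOf (MulAction.stabilizer Γ u))) ?_
      intro q
      obtain ⟨σ, rfl⟩ := QuotientGroup.mk_surjective q
      have hσ : ((σ⁻¹ : MulAction.stabilizer Γ u) : Γ) • u = u := (σ⁻¹).2
      obtain ⟨ν, hν, h⟩ := key {u} ((σ⁻¹ : MulAction.stabilizer Γ u) : Γ) u rfl hσ
      have hνs : ν ∈ MulAction.stabilizer Γ u := triv ν hν u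
      refine ⟨⟨⟨ν, hνs⟩ * σ⁻¹, h⟩, ?_⟩
      show (QuotientGroup.mk ((⟨ν, hνs⟩ * σ⁻¹ : MulAction.stabilizer Γ u)⁻¹) :
        MulAction.stabilizer Γ u ⧸ N.subgroupOf (MulAction.stabilizer Γ u)) = QuotientGroup.mk σ
      rw [QuotientGroup.eq, inv_inv, mul_assoc, inv_mul_cancel, mul_one]
      exact hν
    exact Subgroup.finiteIndex_of_finite_quotient

end Pool.Agent.P8H4.TU
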